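import Mathlib

/-! Elementary lower bounds for the mean square of quadratic Weyl sums over unions of small boxes
placed at rational points with prime denominators. -/

open Finset MeasureTheory

namespace Pool.Agent.Lib.MP_ccba9a_nt

/-- orthogonality -/
lemma sum_exp_eq (p : ℕ) (hp : 0 < p) (d : ℤ) :
    ∑ b ∈ range p, Complex.exp (2 * (Real.pi:ℂ) * Complex.I * ((b:ℂ) / p * d)) =
      if (p:ℤ) ∣ d then (p:ℂ) else 0 := by
  have hp0 : (p:ℂ) ≠ 0 := by exact_mod_cast hp.ne'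
  set ζ : ℂ := Complex.exp (2 * (Real.pi:ℂ) * Complex.I * (d / p)) with hζ
  have hterm : ∀ b : ℕ, Complex.exp (2 * (Real.pi:ℂ) * Complex.I * ((b:ℂ) / p * d)) = ζ ^ b := by
    intro b
    rw [hζ, ← Complex.exp_nat_mul]
    congr 1
    ring
  simp_rw [hterm]
  split_ifs with h
  · obtain ⟨c, rfl⟩ := h
    have : ζ = 1 := by
      rw [hζ, Complex.exp_eq_one_iff]
      refine ⟨c, ?_⟩
      push_cast
      field_simp
    simp [this]
  · have h1 : ζ ≠ 1 := by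
      intro h1
      rw [hζ, Complex.exp_eq_one_iff] at h1
      obtain ⟨n, hn⟩ := h1
      apply h
      have h2 : (d:ℂ) = p * n := by
        have h3 : (2 * (Real.pi:ℂ) * Complex.I) ≠ 0 := Complex.two_pi_I_ne_zero
        have h4 : (2 * (Real.pi:ℂ) * Complex.I) * ((d:ℂ) / p) = (2 * (Real.pi:ℂ) * Complex.I) * n := by
          rw [hn]; ring
        have h5 := mul_left_cancel₀ h3 h4
        field_simp at h5
        exact h5
      have h6 : d = p * n := by exact_mod_cast h2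
      exact ⟨n, h6⟩
    have h2 : ζ ^ p = 1 := by
      rw [hζ, ← Complex.exp_nat_mul, Complex.exp_eq_one_iff]
      refine ⟨d, ?_⟩
      field_simp
    rw [geom_sum_eq h1, h2]
    simp

lemma card_pairs (p X : ℕ) (hp : 0 < p) :
    (X:ℝ)^2 ≤ p * ∑ x ∈ Icc 1 X, ∑ y ∈ Icc 1 X, (if (p:ℤ) ∣ (x:ℤ) - y then (1:ℝ) else 0) := by
  classical
  have h1 : ∀ x ∈ Icc 1 X, ∀ y ∈ Icc 1 X, (if (p:ℤ) ∣ (x:ℤ) - y then (1:ℝ) else 0) =
      ∑ r ∈ range p, (if x % p = r then (1:ℝ) else 0) * (if y % p = r then (1:ℝ) else 0) := by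
    intro x _ y _
    have hx : x % p ∈ range p := mem_range.mpr (Nat.mod_lt _ hp)
    have : ∑ r ∈ range p, (if x % p = r then (1:ℝ) else 0) * (if y % p = r then (1:ℝ) else 0)
        = (if y % p = x % p then (1:ℝ) else 0) := by
      rw [Finset.sum_eq_single (x % p)]
      · simp
      · intro b _ hb
        simp [hb.symm]
      · intro h; exact absurd hx h
    rw [this]
    have : ((p:ℤ) ∣ (x:ℤ) - y) ↔ y % p = x % p := by
      rw [← Int.natCast_inj (m := y % p)]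
      push_cast
      rw [← Int.emod_emod_of_dvd (x:ℤ) (dvd_refl (p:ℤ))]
      exact ⟨fun h => by
        have := (Int.emod_emod_of_dvd (x:ℤ) (dvd_refl (p:ℤ)))
        rw [this]
        exact (Int.modEq_iff_dvd.mpr h), fun h => by
        have h2 := (Int.emod_emod_of_dvd (x:ℤ) (dvd_refl (p:ℤ)))
        rw [h2] at h
        exact (Int.modEq_iff_dvd.mp h)⟩
    simp [this]
  have h2 : ∑ x ∈ Icc 1 X, ∑ y ∈ Icc 1 X, (if (p:ℤ) ∣ (x:ℤ) - y then (1:ℝ) else 0) =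
      ∑ r ∈ range p, (∑ x ∈ Icc 1 X, (if x % p = r then (1:ℝ) else 0))^2 := by
    rw [Finset.sum_congr rfl (fun x hx => Finset.sum_congr rfl (fun y hy => h1 x hx y hy))]
    rw [Finset.sum_congr rfl (fun x hx => Finset.sum_comm), Finset.sum_comm]
    refine Finset.sum_congr rfl (fun r _ => ?_)
    rw [sq, Finset.sum_mul_sum]
  rw [h2]
  have h3 := sq_sum_le_card_mul_sum_sq (s := range p)
    (f := fun r => ∑ x ∈ Icc 1 X, (if x % p = r then (1:ℝ) else 0))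
  rw [card_range] at h3
  refine le_trans (le_of_eq ?_) h3
  congr 1
  rw [Finset.sum_comm]
  have : ∀ x ∈ Icc 1 X, ∑ r ∈ range p, (if x % p = r then (1:ℝ) else 0) = 1 := by
    intro x _
    rw [Finset.sum_ite_eq]
    simp [Nat.mod_lt _ hp]
  rw [Finset.sum_congr rfl this]
  simp

lemma normsq_sum (s : Finset ℕ) (g : ℕ → ℂ) :
    ‖∑ x ∈ s, g x‖^2 = (∑ x ∈ s, ∑ y ∈ s, g x * (starRingEnd ℂ) (g y)).re := by
  rw [← Finset.sum_mul_sum, ← map_sum, Complex.mul_conj, Complex.ofReal_re, Complex.normSq_eq_norm_sq]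

lemma key (p a X : ℕ) (hp : 0 < p) (β0 β1 : ℝ) (h0 : 0 ≤ β0) (h1 : 0 ≤ β1)
    (h0' : β0 * X ≤ 1/12) (h1' : β1 * X^2 ≤ 1/12) :
    (X:ℝ)^2 / 2 ≤ ∑ b ∈ range p, ‖∑ x ∈ Icc 1 X,
      Complex.exp (2 * (Real.pi:ℂ) * Complex.I *
        ((((b:ℝ)/p + β0 : ℝ) : ℂ) * (x:ℂ) + (((a:ℝ)/p + β1 : ℝ):ℂ) * (x:ℂ)^2))‖^2 := by
  have hp0 : (p:ℂ) ≠ 0 := by exact_mod_cast hp.ne'
  have hpR : (0:ℝ) < p := by exact_mod_cast hp
  set w : ℕ → ℕ → ℂ := fun x y => Complex.exp (2 * (Real.pi:ℂ) * Complex.I *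
      ((a:ℂ)/p * ((x:ℂ)^2 - (y:ℂ)^2) + β0 * ((x:ℂ) - y) + β1 * ((x:ℂ)^2 - (y:ℂ)^2))) with hw
  have hterm : ∀ b x y : ℕ,
      Complex.exp (2 * (Real.pi:ℂ) * Complex.I *
        ((((b:ℝ)/p + β0 : ℝ) : ℂ) * (x:ℂ) + (((a:ℝ)/p + β1 : ℝ):ℂ) * (x:ℂ)^2)) *
      (starRingEnd ℂ) (Complex.exp (2 * (Real.pi:ℂ) * Complex.I *
        ((((b:ℝ)/p + β0 : ℝ) : ℂ) * (y:ℂ) + (((a:ℝ)/p + β1 : ℝ):ℂ) * (y:ℂ)^2))) =
      Complex.exp (2 * (Real.pi:ℂ) * Complex.I * ((b:ℂ) / p * (((x:ℤ) - (y:ℤ) : ℤ) : ℂ))) * w x y := by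
    intro b x y
    rw [← Complex.exp_conj, ← Complex.exp_add, hw, ← Complex.exp_add]
    congr 1
    simp only [map_mul, map_add, map_pow, Complex.conj_ofReal, Complex.conj_I, map_natCast, map_ofNat]
    push_cast
    ring
  have hsum : ∑ b ∈ range p, ‖∑ x ∈ Icc 1 X,
      Complex.exp (2 * (Real.pi:ℂ) * Complex.I *
        ((((b:ℝ)/p + β0 : ℝ) : ℂ) * (x:ℂ) + (((a:ℝ)/p + β1 : ℝ):ℂ) * (x:ℂ)^2))‖^2 =
      ∑ x ∈ Icc 1 X, ∑ y ∈ Icc 1 X, ((if (p:ℤ) ∣ (x:ℤ) - y then (p:ℂ) else 0) * w x y).re := by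
    simp_rw [normsq_sum, hterm]
    rw [← Complex.re_sum]
    simp_rw [← Complex.re_sum]
    congr 1
    rw [Finset.sum_comm]
    refine Finset.sum_congr rfl (fun x _ => ?_)
    rw [Finset.sum_comm]
    refine Finset.sum_congr rfl (fun y _ => ?_)
    rw [← Finset.sum_mul, sum_exp_eq p hp]
  rw [hsum]
  have hlow : ∀ x ∈ Icc 1 X, ∀ y ∈ Icc 1 X,
      (p:ℝ)/2 * (if (p:ℤ) ∣ (x:ℤ) - y then (1:ℝ) else 0) ≤
      ((if (p:ℤ) ∣ (x:ℤ) - y then (p:ℂ) else 0) * w x y).re := by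
    intro x hx y hy
    split_ifs with h
    · have hx' := Finset.mem_Icc.mp hx
      have hy' := Finset.mem_Icc.mp hy
      have hxX : (x:ℝ) ≤ X := by exact_mod_cast hx'.2
      have hyX : (y:ℝ) ≤ X := by exact_mod_cast hy'.2
      have hx0 : (0:ℝ) ≤ x := by positivity
      have hy0 : (0:ℝ) ≤ y := by positivity
      obtain ⟨c, hc⟩ := h
      have hw1 : w x y = Complex.exp (((2 * Real.pi * (β0 * ((x:ℝ) - y) + β1 * ((x:ℝ)^2 - (y:ℝ)^2)) : ℝ) : ℂ) * Complex.I) := by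
        rw [hw]
        have h2 : (x:ℂ) - y = p * c := by exact_mod_cast hc
        have h3 : (a:ℂ)/p * ((x:ℂ)^2 - (y:ℂ)^2) = ((a * c * ((x:ℤ) + y) : ℤ) : ℂ) := by
          have : (x:ℂ)^2 - (y:ℂ)^2 = p * c * ((x:ℂ) + y) := by rw [← h2]; ring
          rw [this]
          push_cast
          field_simp
        show Complex.exp (2 * (Real.pi:ℂ) * Complex.I *
          ((a:ℂ)/p * ((x:ℂ)^2 - (y:ℂ)^2) + β0 * ((x:ℂ) - y) + β1 * ((x:ℂ)^2 - (y:ℂ)^2))) = _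
        rw [h3]
        rw [show 2 * (Real.pi:ℂ) * Complex.I *
          (((a * c * ((x:ℤ) + y) : ℤ) : ℂ) + β0 * ((x:ℂ) - y) + β1 * ((x:ℂ)^2 - (y:ℂ)^2)) =
          ((a * c * ((x:ℤ) + y) : ℤ) : ℂ) * (2 * (Real.pi:ℂ) * Complex.I) +
            2 * (Real.pi:ℂ) * Complex.I * (β0 * ((x:ℂ) - y) + β1 * ((x:ℂ)^2 - (y:ℂ)^2)) by ring]
        rw [Complex.exp_add, Complex.exp_int_mul_two_pi_mul_I, one_mul]
        congr 1
        push_cast
        ring
      rw [hw1]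
      rw [show ((p:ℂ)) = ((p:ℝ):ℂ) by push_cast; rfl, Complex.re_ofReal_mul, Complex.exp_ofReal_mul_I_re]
      set θ := 2 * Real.pi * (β0 * ((x:ℝ) - y) + β1 * ((x:ℝ)^2 - (y:ℝ)^2)) with hθ
      have hθ1 : |β0 * ((x:ℝ) - y) + β1 * ((x:ℝ)^2 - (y:ℝ)^2)| ≤ 1/6 := by
        have e1 : |β0 * ((x:ℝ) - y)| ≤ 1/12 := by
          rw [abs_mul, abs_of_nonneg h0]
          refine le_trans (mul_le_mul_of_nonneg_left ?_ h0) h0'
          rw [abs_le]; constructor <;> linarith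
        have e2 : |β1 * ((x:ℝ)^2 - (y:ℝ)^2)| ≤ 1/12 := by
          rw [abs_mul, abs_of_nonneg h1]
          refine le_trans (mul_le_mul_of_nonneg_left ?_ h1) h1'
          rw [abs_le]; constructor <;> nlinarith
        calc _ ≤ |β0 * ((x:ℝ) - y)| + |β1 * ((x:ℝ)^2 - (y:ℝ)^2)| := abs_add_le _ _
          _ ≤ 1/6 := by linarith
      have hθ2 : |θ| ≤ Real.pi / 3 := by
        rw [hθ, abs_mul, abs_of_pos (by positivity)]
        nlinarith [Real.pi_pos]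
      have hcos : 1/2 ≤ Real.cos θ := by
        rw [← Real.cos_abs θ, ← Real.cos_pi_div_three]
        exact Real.cos_le_cos_of_nonneg_of_le_pi (abs_nonneg _) (by linarith [Real.pi_pos]) hθ2
      nlinarith
    · simp
  calc (X:ℝ)^2/2 ≤ (p * ∑ x ∈ Icc 1 X, ∑ y ∈ Icc 1 X, (if (p:ℤ) ∣ (x:ℤ) - y then (1:ℝ) else 0)) / 2 := by
        have := card_pairs p X hp
        linarith
    _ = ∑ x ∈ Icc 1 X, ∑ y ∈ Icc 1 X, (p:ℝ)/2 * (if (p:ℤ) ∣ (x:ℤ) - y then (1:ℝ) else 0) := by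
        simp_rw [← Finset.mul_sum]
        ring
    _ ≤ _ := Finset.sum_le_sum (fun x hx => Finset.sum_le_sum (fun y hy => hlow x hx y hy))

/-- The quadratic Weyl sum. -/
noncomputable def F (X : ℕ) (α : Fin 2 → ℝ) : ℂ :=
  ∑ x ∈ Icc 1 X, Complex.exp (2 * (Real.pi:ℂ) * Complex.I *
              ∑ j : Fin 2, (α j : ℂ) * (x:ℂ) ^ ((j:ℕ) + 1))

lemma F_cont (X : ℕ) : Continuous (F X) := by
  unfold F
  fun_prop

lemma F_eq (X : ℕ) (α : Fin 2 → ℝ) : F X α = ∑ x ∈ Icc 1 X, Complex.exp (2 * (Real.pi:ℂ) * Complex.I *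
        (((α 0 : ℝ) : ℂ) * (x:ℂ) + ((α 1:ℝ):ℂ) * (x:ℂ)^2)) := by
  unfold F
  refine Finset.sum_congr rfl (fun x _ => ?_)
  simp [Fin.sum_univ_two]

/-- The half-open box with corner `v` and side lengths `1/(12 X)`, `1/(12 X^2)`. -/
def Box (X : ℕ) (v : Fin 2 → ℝ) : Set (Fin 2 → ℝ) :=
  Set.pi Set.univ (fun j => Set.Ico (v j) (v j + 1 / (12 * (X:ℝ)^((j:ℕ)+1))))

lemma Box_meas (X : ℕ) (v : Fin 2 → ℝ) : MeasurableSet (Box X v) :=
  MeasurableSet.univ_pi (fun _ => measurableSet_Ico)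

lemma Box_vol (X : ℕ) (v : Fin 2 → ℝ) : (volume (Box X v)).toReal = 1 / (144 * (X:ℝ)^3) := by
  unfold Box
  rw [Real.volume_pi_Ico_toReal]
  · rw [Fin.prod_univ_two]
    simp
    ring
  · intro j
    have : (0:ℝ) ≤ 1 / (12 * (X:ℝ)^((j:ℕ)+1)) := by positivity
    simp only
    linarith

lemma Box_fin (X : ℕ) (v : Fin 2 → ℝ) : volume (Box X v) ≠ ⊤ := by
  unfold Box
  rw [Real.volume_pi_Ico]
  exact ENNReal.prod_ne_top (fun _ _ => ENNReal.ofReal_ne_top)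

lemma Box_integrable (X : ℕ) (v : Fin 2 → ℝ) (g : (Fin 2 → ℝ) → ℝ) (hg : Continuous g) :
    IntegrableOn g (Box X v) := by
  have h1 : IntegrableOn g (Set.Icc v (fun j => v j + 1 / (12 * (X:ℝ)^((j:ℕ)+1)))) :=
    hg.continuousOn.integrableOn_compact isCompact_Icc
  refine h1.mono_set ?_
  intro α hα
  rw [Box, Set.mem_univ_pi] at hα
  exact ⟨fun j => (hα j).1, fun j => (hα j).2.le⟩

lemma Box_shift (X : ℕ) (v : Fin 2 → ℝ) (g : (Fin 2 → ℝ) → ℝ) :
    ∫ α in Box X v, g α = ∫ β in Box X 0, g (v + β) := by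
  have h1 := (measurePreserving_add_left (volume : Measure (Fin 2 → ℝ)) v).setIntegral_preimage_emb
    (measurableEmbedding_addLeft v) g (Box X v)
  rw [← h1]
  congr 2
  ext β
  simp only [Set.mem_preimage, Box, Set.mem_univ_pi, Set.mem_Ico, Pi.add_apply, Pi.zero_apply]
  refine forall_congr' (fun j => ?_)
  constructor
  · rintro ⟨h, h'⟩; constructor <;> linarith
  · rintro ⟨h, h'⟩; constructor <;> linarith

lemma Box_sum (p a X : ℕ) (hp : 0 < p) (hX : 0 < X) :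
    1 / (288 * (X:ℝ)) ≤ ∑ b ∈ range p, ∫ α in Box X ![(b:ℝ)/p, (a:ℝ)/p], ‖F X α‖^2 := by
  have hXR : (0:ℝ) < X := by exact_mod_cast hX
  rw [Finset.sum_congr rfl (fun (b:ℕ) _ => Box_shift X ![(b:ℝ)/p, (a:ℝ)/p] (fun α => ‖F X α‖^2))]
  rw [← integral_finsetSum]
  · calc 1 / (288 * (X:ℝ)) = (volume (Box X 0)).toReal * ((X:ℝ)^2/2) := by
          rw [Box_vol]; field_simp; norm_num
      _ = ∫ β in Box X 0, ((X:ℝ)^2/2) := by
          rw [setIntegral_const]; rfl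
      _ ≤ _ := by
          refine setIntegral_mono_on ?_ ?_ (Box_meas X 0) ?_
          · exact integrableOn_const (Box_fin X 0)
          · refine Box_integrable X 0 _ ?_
            have := F_cont X
            fun_prop
          · intro β hβ
            rw [Box, Set.mem_univ_pi] at hβ
            have hb0 := hβ 0
            have hb1 := hβ 1
            simp only [Pi.zero_apply, Set.mem_Ico, Fin.val_zero, Fin.val_one, zero_add] at hb0 hb1
            have e0 : β 0 * X ≤ 1/12 := by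
              have := mul_le_mul_of_nonneg_right hb0.2.le hXR.le
              refine this.trans (le_of_eq ?_)
              field_simp
            have e1 : β 1 * X^2 ≤ 1/12 := by
              have := mul_le_mul_of_nonneg_right hb1.2.le (sq_nonneg (X:ℝ))
              refine this.trans (le_of_eq ?_)
              field_simp
            refine (key p a X hp (β 0) (β 1) hb0.1 hb1.1 e0 e1).trans (le_of_eq ?_)
            refine Finset.sum_congr rfl (fun b _ => ?_)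
            rw [F_eq]
            simp
  · intro b _
    refine Box_integrable X 0 _ ?_
    have := F_cont X
    fun_prop


lemma Box_disj (X p a b p' a' b' : ℕ) (hX : 0 < X) (hp : p.Prime) (hp' : p'.Prime) (hpX : p ≤ X)
    (hpX' : p' ≤ X) (ha : 1 ≤ a) (hap : a < p) (ha' : 1 ≤ a') (hap' : a' < p')
    (hne : ¬ (p = p' ∧ a = a' ∧ b = b')) :
    Disjoint (Box X ![(b:ℝ)/p, (a:ℝ)/p]) (Box X ![(b':ℝ)/p', (a':ℝ)/p']) := by
  rw [Set.disjoint_left]
  intro α h1 h2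
  rw [Box, Set.mem_univ_pi] at h1 h2
  have h10 := h1 0
  have h11 := h1 1
  have h20 := h2 0
  have h21 := h2 1
  simp only [Set.mem_Ico, Matrix.cons_val_zero, Matrix.cons_val_one, Fin.val_zero, Fin.val_one,
    zero_add, one_add_one_eq_two, pow_one] at h10 h11 h20 h21
  have hXR : (0:ℝ) < X := by exact_mod_cast hX
  have hpR : (0:ℝ) < p := by exact_mod_cast hp.pos
  have hpR' : (0:ℝ) < p' := by exact_mod_cast hp'.pos
  have hpXR : (p:ℝ) ≤ X := by exact_mod_cast hpX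
  have hpXR' : (p':ℝ) ≤ X := by exact_mod_cast hpX'
  have hd1 : |(a:ℝ)/p - (a':ℝ)/p'| < 1/(12 * (X:ℝ)^2) := by
    rw [abs_lt]; constructor <;> linarith
  have e1 : a * p' = a' * p := by
    have h3 : |(a:ℝ)*p' - a' * p| < 1 := by
      have : (a:ℝ)*p' - a' * p = ((a:ℝ)/p - (a':ℝ)/p') * (p * p') := by field_simp
      rw [this, abs_mul, abs_of_pos (mul_pos hpR hpR')]
      have hpp : (p:ℝ) * p' ≤ X^2 := by nlinarith
      calc |(a:ℝ)/p - (a':ℝ)/p'| * (p * p') ≤ 1/(12 * (X:ℝ)^2) * X^2 := by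
            gcongr
        _ = 1/12 := by field_simp
        _ < 1 := by norm_num
    have h4 : |((a * p' : ℕ):ℤ) - ((a' * p : ℕ) : ℤ)| < 1 := by
      have : ((|((a * p' : ℕ):ℤ) - ((a' * p : ℕ) : ℤ)| : ℤ) : ℝ) < ((1:ℤ):ℝ) := by
        push_cast
        simpa using h3
      exact_mod_cast this
    have h5 := Int.abs_lt_one_iff.mp h4
    have h6 : ((a * p' : ℕ):ℤ) = ((a' * p : ℕ) : ℤ) := by linarith
    exact_mod_cast h6
  have e2 : p = p' := by
    have h3 : p ∣ a * p' := ⟨a', by rw [e1]; ring⟩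
    rcases (Nat.Prime.dvd_mul hp).mp h3 with h | h
    · exact absurd (Nat.le_of_dvd (by omega) h) (by omega)
    · exact (Nat.prime_dvd_prime_iff_eq hp hp').mp h
  subst e2
  have e3 : a = a' := Nat.eq_of_mul_eq_mul_right hp.pos e1
  subst e3
  have e4 : b = b' := by
    have hd0 : |(b:ℝ)/p - (b':ℝ)/p| < 1/(12 * (X:ℝ)) := by
      rw [abs_lt]; constructor <;> linarith
    have h3 : |(b:ℝ) - b'| < 1 := by
      have : (b:ℝ) - b' = ((b:ℝ)/p - (b':ℝ)/p) * p := by field_simp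
      rw [this, abs_mul, abs_of_pos hpR]
      calc |(b:ℝ)/p - (b':ℝ)/p| * p ≤ 1/(12 * (X:ℝ)) * X := by
            gcongr
        _ = 1/12 := by field_simp
        _ < 1 := by norm_num
    have h4 : |(b:ℤ) - (b' : ℤ)| < 1 := by
      have : ((|(b:ℤ) - (b' : ℤ)| : ℤ) : ℝ) < ((1:ℤ):ℝ) := by
        push_cast
        simpa using h3
      exact_mod_cast this
    have h5 := Int.abs_lt_one_iff.mp h4
    have h6 : (b:ℤ) = (b' : ℤ) := by linarith
    exact_mod_cast h6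
  exact hne ⟨rfl, rfl, e4⟩

/-- The union of boxes. -/
def T (X : ℕ) (S : Finset (ℕ × ℕ)) : Set (Fin 2 → ℝ) :=
  ⋃ i ∈ S.sigma (fun s => range s.1), Box X ![(i.2:ℝ)/i.1.1, (i.1.2:ℝ)/i.1.1]

lemma T_meas (X : ℕ) (S : Finset (ℕ × ℕ)) : MeasurableSet (T X S) :=
  Finset.measurableSet_biUnion _ (fun _ _ => Box_meas X _)

lemma T_sub (X : ℕ) (hX : 0 < X) (S : Finset (ℕ × ℕ))
    (hS : ∀ s ∈ S, s.1.Prime ∧ s.1 ≤ X ∧ 1 ≤ s.2 ∧ s.2 < s.1) :
    T X S ⊆ Set.pi Set.univ (fun _ => Set.Ico (0:ℝ) 1) := by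
  intro α hα
  rw [T, Set.mem_iUnion₂] at hα
  obtain ⟨i, hi, hα⟩ := hα
  rw [Finset.mem_sigma] at hi
  obtain ⟨hp, hpX, ha, hap⟩ := hS i.1 hi.1
  have hb := Finset.mem_range.mp hi.2
  rw [Box, Set.mem_univ_pi] at hα
  have hXR : (0:ℝ) < X := by exact_mod_cast hX
  have hX1 : (1:ℝ) ≤ X := by exact_mod_cast hX
  have hpR : (0:ℝ) < i.1.1 := by exact_mod_cast hp.pos
  have hpXR : (i.1.1:ℝ) ≤ X := by exact_mod_cast hpX
  have g0 : 1/(12 * (X:ℝ)) ≤ 1 / i.1.1 := by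
    apply one_div_le_one_div_of_le hpR
    linarith
  have g1 : 1/(12 * (X:ℝ)^2) ≤ 1 / i.1.1 := by
    apply one_div_le_one_div_of_le hpR
    nlinarith
  have c0 : ((i.2:ℝ)+1)/i.1.1 ≤ 1 := by
    rw [div_le_one hpR]
    exact_mod_cast hb
  have c1 : ((i.1.2:ℝ)+1)/i.1.1 ≤ 1 := by
    rw [div_le_one hpR]
    exact_mod_cast hap
  have d0 : (0:ℝ) ≤ (i.2:ℝ)/i.1.1 := by positivity
  have d1 : (0:ℝ) ≤ (i.1.2:ℝ)/i.1.1 := by positivity
  rw [add_div] at c0 c1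
  rw [Set.mem_univ_pi]
  intro j
  have hj := hα j
  fin_cases j
  · simp only [Set.mem_Ico, Fin.zero_eta, Matrix.cons_val_zero, zero_add, pow_one] at hj ⊢
    constructor <;> linarith [hj.1, hj.2]
  · simp only [Set.mem_Ico, Fin.mk_one, Matrix.cons_val_one, Matrix.cons_val_fin_one, one_add_one_eq_two] at hj ⊢
    constructor <;> linarith [hj.1, hj.2]

lemma T_int (X : ℕ) (hX : 0 < X) (S : Finset (ℕ × ℕ))
    (hS : ∀ s ∈ S, s.1.Prime ∧ s.1 ≤ X ∧ 1 ≤ s.2 ∧ s.2 < s.1) :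
    (S.card : ℝ) / (288 * X) ≤ ∫ α in T X S, ‖F X α‖^2 := by
  unfold T
  rw [integral_biUnion_finset]
  · rw [Finset.sum_sigma]
    calc (S.card : ℝ) / (288 * X) = ∑ s ∈ S, 1 / (288 * (X:ℝ)) := by
          rw [Finset.sum_const, nsmul_eq_mul]; ring
      _ ≤ _ := Finset.sum_le_sum (fun s hs => Box_sum s.1 s.2 X (hS s hs).1.pos hX)
  · intro i _
    exact Box_meas X _
  · intro i hi i' hi' hne
    rw [Finset.mem_coe, Finset.mem_sigma] at hi hi'
    obtain ⟨hp, hpX, ha, hap⟩ := hS i.1 hi.1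
    obtain ⟨hp', hpX', ha', hap'⟩ := hS i'.1 hi'.1
    refine Box_disj X _ _ _ _ _ _ hX hp hp' hpX hpX' ha hap ha' hap' ?_
    rintro ⟨h1, h2, h3⟩
    apply hne
    obtain ⟨⟨a, b⟩, c⟩ := i
    obtain ⟨⟨a', b'⟩, c'⟩ := i'
    simp only at h1 h2 h3
    subst h1 h2 h3
    rfl
  · intro i _
    refine Box_integrable X _ _ ?_
    have := F_cont X
    fun_prop

lemma T_vol (X Q : ℕ) (S : Finset (ℕ × ℕ)) (hS : ∀ s ∈ S, s.1 ≤ Q) :
    (volume (T X S)).toReal ≤ S.card * Q / (144 * (X:ℝ)^3) := by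
  have h1 : volume (T X S) ≤ ∑ i ∈ S.sigma (fun s => range s.1), volume (Box X ![(i.2:ℝ)/i.1.1, (i.1.2:ℝ)/i.1.1]) :=
    measure_biUnion_finset_le _ _
  have h2 : (∑ i ∈ S.sigma (fun s => range s.1), volume (Box X ![(i.2:ℝ)/i.1.1, (i.1.2:ℝ)/i.1.1])) ≠ ⊤ :=
    ENNReal.sum_ne_top.mpr (fun i _ => Box_fin X _)
  have h3 := ENNReal.toReal_mono h2 h1
  rw [ENNReal.toReal_sum (fun i _ => Box_fin X _)] at h3
  refine h3.trans ?_
  simp_rw [Box_vol]
  rw [Finset.sum_const, nsmul_eq_mul, Finset.card_sigma]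
  have h4 : ((∑ s ∈ S, (range s.1).card : ℕ) : ℝ) ≤ S.card * Q := by
    have : ∑ s ∈ S, (range s.1).card ≤ S.card * Q := by
      rw [← smul_eq_mul, ← Finset.sum_const]
      exact Finset.sum_le_sum (fun s hs => by rw [card_range]; exact hS s hs)
    exact_mod_cast this
  calc _ ≤ (S.card * Q : ℝ) * (1 / (144 * (X:ℝ)^3)) := by gcongr
    _ = _ := by ring

/-- pairs of primes a < p ≤ Q -/
def S (Q : ℕ) : Finset (ℕ × ℕ) :=
  ((Nat.primesLE Q) ×ˢ (Nat.primesLE Q)).filter (fun s => s.2 < s.1)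

lemma S_card_le (Q : ℕ) : (S Q).card ≤ (Q+1)^2 := by
  have h : (Nat.primesLE Q).card ≤ Q + 1 := by
    rw [Nat.primesLE]
    refine (Finset.card_filter_le _ _).trans ?_
    simp
  calc (S Q).card ≤ ((Nat.primesLE Q) ×ˢ (Nat.primesLE Q)).card := Finset.card_filter_le _ _
    _ = (Nat.primesLE Q).card * (Nat.primesLE Q).card := Finset.card_product _ _
    _ ≤ (Q+1) * (Q+1) := Nat.mul_le_mul h h
    _ = (Q+1)^2 := by ring

lemma S_card_ge (Q : ℕ) : (Nat.primeCounting Q)^2 ≤ 2 * (S Q).card + Nat.primeCounting Q := by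
  have hcard : (Nat.primesLE Q).card = Nat.primeCounting Q := by
    simp
  rw [← hcard]
  set P := Nat.primesLE Q with hP
  have h1 : (S Q).card = ∑ p ∈ P, ∑ a ∈ P, if a < p then 1 else 0 := by
    rw [S, Finset.card_filter, Finset.sum_product]
  have h2 : (S Q).card = ∑ p ∈ P, ∑ a ∈ P, if p < a then 1 else 0 := by
    rw [h1, Finset.sum_comm]
  have h3 : P.card = ∑ p ∈ P, ∑ a ∈ P, if p = a then 1 else 0 := by
    rw [Finset.card_eq_sum_ones]
    refine Finset.sum_congr rfl (fun p hp => ?_)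
    rw [Finset.sum_ite_eq]
    simp [hp]
  have h4 : P.card^2 = ∑ p ∈ P, ∑ a ∈ P, 1 := by
    simp [sq]
  have h5 : ∀ p a : ℕ, 1 = (if a < p then 1 else 0) + (if p < a then 1 else 0) + (if p = a then 1 else 0) := by
    intro p a
    rcases lt_trichotomy p a with h | h | h
    · simp [h, h.ne, h.le]
    · simp [h]
    · simp [h, h.ne', h.le]
  rw [h4, Finset.sum_congr rfl (fun p _ => Finset.sum_congr rfl (fun a _ => h5 p a))]
  simp_rw [Finset.sum_add_distrib]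
  rw [← h1, ← h2, ← h3]
  omega

lemma pi_lower (m : ℕ) (hm : 2 ≤ m) : (m:ℝ)^31 / 64 ≤ Nat.primeCounting (m^32) := by
  have h := Chebyshev.pi_ge (m^32)
  refine le_trans ?_ h
  have hmR : (2:ℝ) ≤ m := by exact_mod_cast hm
  have hm0 : (0:ℝ) < m := by linarith
  have hlog : Real.log m ≤ m := (Real.log_le_sub_one_of_pos hm0).trans (by linarith)
  have hlogpos : 0 < Real.log m := Real.log_pos (by linarith)
  have e1 : Real.log ((m^32 : ℕ):ℝ) = 32 * Real.log m := by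
    push_cast
    rw [Real.log_pow]; norm_num
  rw [e1]
  rw [le_div_iff₀ (by positivity)]
  have h32 : (2:ℝ)^32 ≤ (m:ℝ)^32 := by gcongr
  have h31 : (2:ℝ)^31 ≤ (m:ℝ)^31 := by gcongr
  have e2 : Real.log (((m^32 : ℕ):ℝ) + 1) ≤ 33 * m := by
    have : ((m^32 : ℕ):ℝ) + 1 ≤ (m:ℝ)^33 := by
      push_cast
      calc (m:ℝ)^32 + 1 ≤ (m:ℝ)^32 + (m:ℝ)^32 := by
            have : (1:ℝ) ≤ 2^32 := by norm_num
            linarith
        _ = 2 * (m:ℝ)^32 := by ring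
        _ ≤ m * (m:ℝ)^32 := by gcongr
        _ = (m:ℝ)^33 := by ring
    calc Real.log (((m^32 : ℕ):ℝ) + 1) ≤ Real.log ((m:ℝ)^33) := by
          apply Real.log_le_log _ this
          positivity
      _ = 33 * Real.log m := by rw [Real.log_pow]; norm_num
      _ ≤ 33 * m := by linarith
  have hl2 := Real.log_two_gt_d9
  calc (m:ℝ)^31/64 * (32 * Real.log m) ≤ (m:ℝ)^31/64 * (32 * m) := by gcongr
    _ = (m:ℝ)^32 / 2 := by ring
    _ ≤ (m:ℝ)^32 * Real.log 2 - 33 * m := by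
        have : (33:ℝ) * m ≤ (m:ℝ)^32 * 0.19 := by
          have : (m:ℝ)^32 = (m:ℝ)^31 * m := by ring
          rw [this]
          have h7 : (33:ℝ) ≤ (m:ℝ)^31 * 0.19 := by
            have : (33:ℝ) ≤ 2^31 * 0.19 := by norm_num
            nlinarith
          nlinarith
        nlinarith
    _ ≤ ((m^32 : ℕ):ℝ) * Real.log 2 - Real.log (((m^32 : ℕ):ℝ) + 1) := by
        push_cast at e2 ⊢
        linarith

end Pool.Agent.Lib.MP_ccba9a_nt
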